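import Mathlib
import Pool.Agent.H51.FrameDefs
import Pool.Agent.H51.FrameMain

/-!
# `ψ_b` is a frame wavelet for every `b` with `1/8 < b ≤ 1/6`

The definitions used in the statement are in `Pool.Agent.H51.FrameDefs`.
-/

open MeasureTheory Set FourierTransform Complex ComplexConjugate
open scoped ENNReal
open Pool.Agent.H51.Frame

namespace Pool.Agent.Results.MP_3fc48d_an.AllFrame

lemma lintegral_sq_eq (g : Lp ℂ 2 (volume : Measure ℝ)) :
    ∫⁻ x, ‖g x‖ₑ ^ 2 = ENNReal.ofReal (‖g‖ ^ 2) := by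
  rw [Lp.norm_def, ENNReal.ofReal_pow ENNReal.toReal_nonneg,
    ENNReal.ofReal_toReal (Lp.eLpNorm_ne_top g),
    eLpNorm_eq_lintegral_rpow_enorm_toReal (by norm_num) (by norm_num)]
  simp only [ENNReal.toReal_ofNat, one_div]
  rw [← ENNReal.rpow_natCast, ← ENNReal.rpow_mul]
  norm_num

lemma tsum_coeff {b : ℝ} (hb0 : 0 < b) (hb1 : b < 1 / 2) (f : Lp ℂ 2 (volume : Measure ℝ)) :
    ∑' p : ℤ × ℤ, ENNReal.ofReal (‖waveletCoeff (psiB b) f p.1 p.2‖ ^ 2) =
      ∑' j : ℤ, ∫⁻ x in Ioc 0 ((2 : ℝ) ^ j),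
        ‖fold b (𝓕 f : Lp ℂ 2 (volume : Measure ℝ)) ((2 : ℝ) ^ j) x‖ₑ ^ 2 := by
  set F : Lp ℂ 2 (volume : Measure ℝ) := 𝓕 f with hF
  have hprod := ENNReal.tsum_prod
    (f := fun (j k : ℤ) => ENNReal.ofReal (‖waveletCoeff (psiB b) f j k‖ ^ 2))
  rw [hprod]
  congr 1
  ext j
  have hsum := hasSum_coeff (j := j) hb0 hb1 (Lp.memLp F)
  have hmem : MemLp (fold b F ((2 : ℝ) ^ j)) 2 volume := memLp_fold b (Lp.memLp F) _
  have hint : Integrable (fun x => ‖fold b F ((2 : ℝ) ^ j) x‖ ^ 2)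
      (volume.restrict (Ioc 0 ((2 : ℝ) ^ j))) :=
    (memLp_two_iff_integrable_sq_norm hmem.1.restrict).1
      (hmem.mono_measure Measure.restrict_le_self)
  have h1 : ∑' k : ℤ, ENNReal.ofReal (‖waveletCoeff (psiB b) f j k‖ ^ 2) =
      ENNReal.ofReal (∫ x in (0 : ℝ)..((2 : ℝ) ^ j), ‖fold b F ((2 : ℝ) ^ j) x‖ ^ 2) := by
    have hfun : (fun k : ℤ => ‖waveletCoeff (psiB b) f j k‖ ^ 2) =
        fun k : ℤ => ‖∫ η, conj (chiJK b j k η) * F η‖ ^ 2 := by
      ext k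
      rw [waveletCoeff_eq]
    rw [← hsum.tsum_eq, ENNReal.ofReal_tsum_of_nonneg (fun k => by positivity) hsum.summable]
    congr 1
    ext k
    rw [congrFun hfun k]
  rw [h1, intervalIntegral.integral_of_le (by positivity),
    ofReal_integral_eq_lintegral_ofReal hint (by filter_upwards with x; positivity)]
  apply lintegral_congr
  intro x
  rw [ENNReal.ofReal_pow (norm_nonneg _), ofReal_norm]

/-- The frame inequalities with explicit bounds. -/
lemma isFrameWavelet_psiB {b : ℝ} (hb1 : 1 / 8 < b) (hb2 : b ≤ 1 / 6) :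
    IsFrameWavelet (psiB b) := by
  have hb0 : 0 < b := by linarith
  have hb3 : b < 1 / 2 := by linarith
  have hs1 : 1 < Real.sqrt 2 := by
    rw [show (1 : ℝ) = Real.sqrt 1 by simp]
    exact Real.sqrt_lt_sqrt (by norm_num) (by norm_num)
  have hs2 : Real.sqrt 2 < 2 := by
    rw [show (2 : ℝ) = Real.sqrt 4 by
      rw [show (4 : ℝ) = 2 ^ 2 by norm_num, Real.sqrt_sq (by norm_num)]]
    exact Real.sqrt_lt_sqrt (by norm_num) (by norm_num)
  refine ⟨(Real.sqrt 2 - 1) ^ 4, (1 + Real.sqrt 2) ^ 2, ?_, ?_, ?_⟩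
  · have : 0 < Real.sqrt 2 - 1 := by linarith
    positivity
  · calc (Real.sqrt 2 - 1) ^ 4 ≤ 1 ^ 4 := by
          apply pow_le_pow_left₀ (by linarith); linarith
      _ ≤ (1 + Real.sqrt 2) ^ 2 := by nlinarith
  intro f
  have hmeas : Measurable (𝓕 f : Lp ℂ 2 (volume : Measure ℝ)) :=
    (Lp.stronglyMeasurable _).measurable
  have hineq := frame_ineq hb1 hb2 hmeas (Lp.memLp _)
  have hsum := tsum_coeff hb0 hb3 f
  rw [tsum_fold hb0 hb3] at hsum
  rw [← hsum, lintegral_sq_eq, Lp.norm_fourier_eq, ← ENNReal.ofReal_mul (by positivity),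
    ← ENNReal.ofReal_mul (by positivity)] at hineq
  have htop : ∑' p : ℤ × ℤ, ENNReal.ofReal (‖waveletCoeff (psiB b) f p.1 p.2‖ ^ 2) ≠ ⊤ :=
    ne_top_of_le_ne_top ENNReal.ofReal_ne_top hineq.2
  have hsummable : Summable (fun p : ℤ × ℤ => ‖waveletCoeff (psiB b) f p.1 p.2‖ ^ 2) := by
    have := ENNReal.summable_toReal htop
    refine this.congr fun p => ?_
    rw [ENNReal.toReal_ofReal (by positivity)]
  refine ⟨hsummable, ?_, ?_⟩
  · rw [← ENNReal.ofReal_tsum_of_nonneg (fun p => by positivity) hsummable] at hineq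
    exact (ENNReal.ofReal_le_ofReal_iff (tsum_nonneg fun p => by positivity)).1 hineq.1
  · rw [← ENNReal.ofReal_tsum_of_nonneg (fun p => by positivity) hsummable] at hineq
    exact (ENNReal.ofReal_le_ofReal_iff (by positivity)).1 hineq.2

/-- **Main result.** The set of all `b` with `1/8 < b ≤ 1/6` for which `ψ_b` is a frame wavelet
is the whole interval `(1/8, 1/6]`. -/
theorem result :
    {b : ℝ | 1 / 8 < b ∧ b ≤ 1 / 6 ∧ IsFrameWavelet (psiB b)} = Set.Ioc (1 / 8 : ℝ) (1 / 6) := by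
  ext b
  constructor
  · rintro ⟨h1, h2, _⟩
    exact ⟨h1, h2⟩
  · rintro ⟨h1, h2⟩
    exact ⟨h1, h2, isFrameWavelet_psiB h1 h2⟩

end Pool.Agent.Results.MP_3fc48d_an.AllFrame
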